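import Mathlib
import Pool.Agent.Lib.helper15.HomRep

set_option autoImplicit false

namespace Pool.Agent.Results.MP_f6eb76_al.Embed

universe u

open MulOpposite Function Pool.Agent.Lib.helper15.HomRep

/-- `(W, H)` is a finitely generated subrepresentation; `ρ (op g) v` is `v g`. -/
def IsFGSubrep {K G V : Type u} [CommRing K] [Group G] [AddCommGroup V] [Module K V]
    (ρ : Representation K Gᵐᵒᵖ V) (W : Submodule K V) (H : Subgroup G) : Prop :=
  (∀ h ∈ H, ∀ w ∈ W, ρ (op h) w ∈ W) ∧ H.FG ∧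
    ∃ S : Finset V, W = Submodule.span K {x | ∃ s ∈ S, ∃ h ∈ H, x = ρ (op h) s}

/-- homogeneous representation -/
def Homogeneous {K G V : Type u} [CommRing K] [Group G] [AddCommGroup V] [Module K V]
    (ρ : Representation K Gᵐᵒᵖ V) : Prop :=
  ∀ (W₁ W₂ : Submodule K V) (H₁ H₂ : Subgroup G), IsFGSubrep ρ W₁ H₁ → IsFGSubrep ρ W₂ H₂ →
    ∀ (α : W₁ ≃ₗ[K] W₂) (β : H₁ ≃* H₂),
      (∀ (w w' : W₁) (h : H₁), (w' : V) = ρ (op (h : G)) w →
        (α w' : V) = ρ (op (β h : G)) (α w)) →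
      ∃ (α' : V ≃ₗ[K] V) (β' : G ≃* G), (∀ v g, α' (ρ (op g) v) = ρ (op (β' g)) (α' v)) ∧
        (∀ w : W₁, α' w = α w) ∧ ∀ h : H₁, β' h = β h

def toOp (G : Type u) [Group G] : G →* Gᵐᵒᵖ := (MulEquiv.inv' G).toMonoidHom
def ofOp (G : Type u) [Group G] : Gᵐᵒᵖ →* G := (MulEquiv.inv' G).symm.toMonoidHom

@[simp] lemma toOp_apply {G : Type u} [Group G] (g : G) : toOp G g = op g⁻¹ := rfl
@[simp] lemma ofOp_apply {G : Type u} [Group G] (g : G) : ofOp G (op g) = g⁻¹ := rfl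

lemma sub_range {K : Type u} [CommRing K] {A B : Rp K} (e : Emb A B) (W : Submodule K B.V)
    (H : Subgroup B.G) (S : Finset B.V) (T : Finset B.G) (hT : Subgroup.closure (T : Set B.G) = H)
    (hS : W = Submodule.span K {x | ∃ s ∈ S, ∃ h ∈ H, x = (B.ρ.comp (ofOp B.G)) (op h) s})
    (h1 : ∀ x ∈ T, x ∈ e.β.range) (h2 : ∀ x ∈ S, x ∈ LinearMap.range e.α) :
    H ≤ e.β.range ∧ W ≤ LinearMap.range e.α := by
  have hH : H ≤ e.β.range := by rw [← hT, Subgroup.closure_le]; exact h1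
  refine ⟨hH, ?_⟩
  rw [hS, Submodule.span_le]
  rintro _ ⟨s, hs, h, hh, rfl⟩
  obtain ⟨g, rfl⟩ := hH hh
  obtain ⟨v, rfl⟩ := h2 s hs
  exact ⟨A.ρ g⁻¹ v, by rw [e.eqv, map_inv]; rfl⟩

theorem result (K G V : Type u) [CommRing K] [Group G] [AddCommGroup V] [Module K V]
    (ρ : Representation K Gᵐᵒᵖ V) :
    ∃ (G' V' : Type u) (_ : Group G') (_ : AddCommGroup V') (_ : Module K V')
      (ρ' : Representation K G'ᵐᵒᵖ V') (α : V →ₗ[K] V') (β : G →* G'),
      Injective α ∧ Injective β ∧ (∀ v g, α (ρ (op g) v) = ρ' (op (β g)) (α v)) ∧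
      Homogeneous ρ' := by
  classical
  let A : Rp K := { G := G, V := V, ρ := ρ.comp (toOp G) }
  let e : Emb A (lim A) := iL A 0
  refine ⟨(lim A).G, (lim A).V, inferInstance, inferInstance, inferInstance,
    (lim A).ρ.comp (ofOp _), e.α, e.β, e.hα, e.hβ, ?_, ?_⟩
  · intro v g
    have := e.eqv g⁻¹ v
    rw [map_inv e.β] at this
    refine Eq.trans ?_ this
    show _ = e.α (ρ (op g⁻¹⁻¹) v)
    rw [inv_inv]
  · rintro W₁ W₂ H₁ H₂ ⟨i1, ⟨T1, hT1⟩, S1, hS1⟩ ⟨i2, ⟨T2, hT2⟩, S2, hS2⟩ α β hαβ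
    obtain ⟨n, hn1, hn2⟩ := (fin_range A (T1 ∪ T2) (Set.toFinite _) (S1 ∪ S2) (Set.toFinite _)).exists
    obtain ⟨a1, b1⟩ := sub_range (iL A n) W₁ H₁ S1 T1 hT1 hS1 (fun x hx => hn1 x (Or.inl hx))
      (fun x hx => hn2 x (Or.inl hx))
    obtain ⟨a2, b2⟩ := sub_range (iL A n) W₂ H₂ S2 T2 hT2 hS2 (fun x hx => hn1 x (Or.inr hx))
      (fun x hx => hn2 x (Or.inr hx))
    let Γ : Subgroup ((lim A).G × (lim A).G) :=
      (H₁.subtype.prod (H₂.subtype.comp β.toMonoidHom)).range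
    let Λ : Submodule K ((lim A).V × (lim A).V) :=
      LinearMap.range (W₁.subtype.prod (W₂.subtype.comp α.toLinearMap))
    have hP : PIso (lim A) Γ Λ :=
      { g1 := by
          rintro _ ⟨h, rfl⟩ h1
          have : h = 1 := Subtype.ext h1
          subst this; simp
        g2 := by
          rintro _ ⟨h, rfl⟩ h1
          have : β h = 1 := Subtype.ext h1
          rw [map_eq_one_iff _ β.injective] at this
          subst this; simp
        v1 := by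
          rintro _ ⟨h, rfl⟩ h1
          have : h = 0 := Subtype.ext h1
          subst this; simp
        v2 := by
          rintro _ ⟨h, rfl⟩ h1
          have : α h = 0 := Subtype.ext h1
          rw [map_eq_zero_iff _ α.injective] at this
          subst this; simp
        inv := by
          rintro _ ⟨h, rfl⟩ _ ⟨w, rfl⟩
          have h1 := i1 _ (H₁.inv_mem h.2) _ w.2
          have h2 := hαβ w ⟨_, h1⟩ h⁻¹ rfl
          refine ⟨⟨_, h1⟩, Prod.ext ?_ ?_⟩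
          · show (lim A).ρ (h : (lim A).G)⁻¹⁻¹ w = (lim A).ρ h w
            rw [inv_inv]
          · refine h2.trans ?_
            show (lim A).ρ ((β h⁻¹ : H₂) : (lim A).G)⁻¹ _ = (lim A).ρ (β h : H₂) (α w)
            rw [map_inv β, Subgroup.coe_inv, inv_inv] }
    obtain ⟨g, hg1, hg2⟩ := lim_hom A Γ Λ hP n
      (by rintro _ ⟨h, rfl⟩; exact ⟨a1 h.2, a2 (β h).2⟩)
      (by rintro _ ⟨h, rfl⟩; exact ⟨b1 h.2, b2 (α h).2⟩)
    refine ⟨LinearEquiv.ofLinearMap ((lim A).ρ g) ((lim A).ρ g⁻¹) ?_ ?_, MulAut.conj g, ?_, ?_, ?_⟩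
    · rw [← Module.End.mul_eq_comp, ← map_mul, mul_inv_cancel, map_one]; rfl
    · rw [← Module.End.mul_eq_comp, ← map_mul, inv_mul_cancel, map_one]; rfl
    · intro v x
      show (lim A).ρ g ((lim A).ρ x⁻¹ v) = (lim A).ρ (g * x * g⁻¹)⁻¹ ((lim A).ρ g v)
      rw [← Module.End.mul_apply, ← Module.End.mul_apply, ← map_mul, ← map_mul]
      congr 2; group
    · intro w; exact hg1 _ ⟨w, rfl⟩
    · intro h; exact hg2 _ ⟨h, rfl⟩

end Pool.Agent.Results.MP_f6eb76_al.Embed
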